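import Pool.Agent.H121.UE.Iface

/-! Project UE: the a priori bound (`S_aprB`). -/

set_option autoImplicit false

open scoped BigOperators InnerProductSpace Topology ENNReal
open Filter MeasureTheory

namespace Pool.Agent.H356.UE

open Pool.Agent.Y662.TR
open Pool.Agent.TH369.AN (Rz rz_eq rz_uniq rz_norm)
open Pool.Agent.H987.Z
open Pool.Agent.H304.Z987 (mul_summable' tsum_dv' Gr_symm Gr_im Gr_le rz_sub' Gr_sub_z_le)
open Pool.Agent.H121.Z987
open Pool.Agent.H121.UE (Apr S_aprA S_aprB)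

variable {ι : Type}

/-- the rank one formula for all the entries -/
theorem rank_one' (A A' : LL ι →L[ℂ] LL ι) (hA : IsSelfAdjoint A) (hA' : IsSelfAdjoint A')
    (x : ι) (c : ℂ) (h : ∀ u : LL ι, A' u = A u + (c * u x) • dv x) (z : ℂ) (hz : z.im ≠ 0)
    (y y' : ι) : Gr A' z y' y = Gr A z y' y - c * Gr A' z x y * Gr A z y' x := by
  obtain ⟨w, hw⟩ : ∃ w, w = Rz A' z (dv y) := ⟨_, rfl⟩
  have h1 : A' w - z • w = dv y := by rw [hw]; exact rz_eq _ hA' z hz _
  have h2 : A w - z • w = dv y - (c * w x) • dv x := by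
    rw [← h1, h w]
    abel
  have h3 := rz_uniq A hA z hz w _ h2
  rw [map_sub, map_smul] at h3
  have h4 : w y' = Gr A z y' y - c * w x * Gr A z y' x := by
    conv_lhs => rw [h3]
    rfl
  have h5 : Gr A' z x y = w x := by rw [hw]; rfl
  have h6 : Gr A' z y' y = w y' := by rw [hw]; rfl
  rw [h5, h6]
  exact h4

/-- the determinant of the `2x2` Green function does not vanish -/
theorem det_ne (A : LL ι →L[ℂ] LL ι) (hA : Rs A) (z : ℂ) (hz : 0 < z.im) (x u : ι) (hxu : x ≠ u) :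
    Gr A z x x * Gr A z u u - Gr A z x u ^ 2 ≠ 0 := by
  intro h0
  obtain ⟨φ, hφ⟩ : ∃ φ : LL ι, φ = Gr A z u u • dv x - Gr A z x u • dv u := ⟨_, rfl⟩
  have hR : Rz A z φ = Gr A z u u • Rz A z (dv x) - Gr A z x u • Rz A z (dv u) := by
    rw [hφ, map_sub, map_smul, map_smul]
  have hx : Rz A z φ x = 0 := by
    have h1 : Rz A z φ x = Gr A z u u * Gr A z x x - Gr A z x u * Gr A z x u := by
      rw [hR]
      rfl
    rw [h1]
    linear_combination h0
  have hu' : Rz A z φ u = 0 := by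
    have h1 : Rz A z φ u = Gr A z u u * Gr A z u x - Gr A z x u * Gr A z u u := by
      rw [hR]
      rfl
    rw [h1, Gr_symm A hA z u x hz.ne']
    ring
  have hin : ⟪φ, Rz A z φ⟫_ℂ = 0 := by
    conv_lhs => rw [show ⟪φ, Rz A z φ⟫_ℂ = ⟪Gr A z u u • dv x - Gr A z x u • dv u, Rz A z φ⟫_ℂ by
      rw [← hφ]]
    rw [inner_sub_left, inner_smul_left, inner_smul_left, inner_dv, inner_dv, hx, hu']
    ring
  have him : (⟪φ, Rz A z φ⟫_ℂ).im = z.im * ‖Rz A z φ‖ ^ 2 :=
    Pool.Agent.H12R2.And.im_inner hA.sa hz.ne' φ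
  rw [hin, Complex.zero_im] at him
  have h2 : Rz A z φ = 0 := by
    have h3 : ‖Rz A z φ‖ ^ 2 = 0 := by
      rcases mul_eq_zero.1 him.symm with h3 | h3
      · exact absurd h3 hz.ne'
      · exact h3
    exact norm_eq_zero.1 (pow_eq_zero_iff (two_ne_zero)|>.1 h3)
  have h4 := rz_eq A hA.sa z hz.ne' φ
  rw [h2, map_zero, smul_zero, sub_zero] at h4
  have h5 : φ x = Gr A z u u := by
    have h6 : φ x = Gr A z u u * dv x x - Gr A z x u * dv u x := by
      rw [hφ]
      rfl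
    rw [h6, dv_self, dv_ne hxu]
    ring
  have h7 : Gr A z u u = 0 := by
    rw [← h5, ← h4]
    rfl
  have h8 := Gr_im_pos A hA z hz u
  rw [h7] at h8
  simp at h8

open Classical in
/-- the two site formula -/
theorem site2 (T : LL ι →L[ℂ] LL ι) (hT : Rs T) (lam : ℝ) (ω : ι → ℝ) (z : ℂ) (hz : 0 < z.im)
    (x u : ι) (hxu : x ≠ u) (v w : ℝ) (hv : |v| ≤ 1) (hw : |w| ≤ 1) (α β γ Δ : ℂ)
    (hα : α = Gr (HH T lam (Function.update (Function.update ω u 0) x 0)) z x x)
    (hβ : β = Gr (HH T lam (Function.update (Function.update ω u 0) x 0)) z u u)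
    (hγ : γ = Gr (HH T lam (Function.update (Function.update ω u 0) x 0)) z x u)
    (hΔ : Δ = α * β - γ ^ 2) :
    Gr (HH T lam (Function.update (Function.update ω x v) u w)) z x u =
      (γ / Δ) / ((((lam * v : ℝ) : ℂ) + β / Δ) * (((lam * w : ℝ) : ℂ) + α / Δ) - (γ / Δ) ^ 2) := by
  have hΔ0 : Δ ≠ 0 := by
    rw [hΔ, hα, hβ, hγ]
    exact det_ne _ (HH_rs T hT lam _) z hz x u hxu
  have hαi : 0 < α.im := by rw [hα]; exact Gr_im_pos _ (HH_rs T hT lam _) z hz x
  have hd1 := den_ne (lam * v) α hαi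
  -- the first site
  have hc : Function.update (Function.update ω x v) u 0 =
      Function.update (Function.update ω u 0) x v := Function.update_comm hxu v 0 ω
  have s1 := site T hT lam (Function.update ω u 0) z hz x u v hv
  rw [← hα, ← hγ] at s1
  have s2 := rank_one' _ _ (HH_rs T hT lam (Function.update (Function.update ω u 0) x 0)).sa
    (HH_rs T hT lam (Function.update (Function.update ω u 0) x v)).sa x ((lam * v : ℝ) : ℂ)
    (fun f => HH_update T lam (Function.update ω u 0) x v hv f) z hz.ne' u u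
  rw [Gr_symm _ (HH_rs T hT lam (Function.update (Function.update ω u 0) x 0)) z u x hz.ne',
    ← hβ, ← hγ, s1] at s2
  -- the second site
  have s3 := site T hT lam (Function.update ω x v) z hz u x w hw
  rw [hc, Gr_symm _ (HH_rs T hT lam _) z u x hz.ne',
    Gr_symm _ (HH_rs T hT lam (Function.update (Function.update ω u 0) x v)) z u x hz.ne',
    s1] at s3
  have hbi : 0 < (Gr (HH T lam (Function.update (Function.update ω u 0) x v)) z u u).im :=
    Gr_im_pos _ (HH_rs T hT lam _) z hz u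
  have hd2 := den_ne (lam * w) _ hbi
  rw [s2] at s3 hd2
  rw [s3]
  push_cast at hd1 hd2 ⊢
  obtain ⟨p, hp⟩ : ∃ p : ℂ, p = (lam : ℂ) * (v : ℂ) := ⟨_, rfl⟩
  obtain ⟨q, hq⟩ : ∃ q : ℂ, q = (lam : ℂ) * (w : ℂ) := ⟨_, rfl⟩
  rw [← hp] at hd1 hd2 ⊢
  rw [← hq] at hd2 ⊢
  have k1 : (1 + p * α) * (1 + q * (β - p * (γ / (1 + p * α)) * γ)) =
      (1 + p * α) * (1 + q * β) - p * q * γ ^ 2 := by
    field_simp
    ring
  have k2 : (p + β / Δ) * (q + α / Δ) - (γ / Δ) ^ 2 =
      ((1 + p * α) * (1 + q * β) - p * q * γ ^ 2) / Δ := by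
    rw [eq_div_iff hΔ0]
    have : α * β = Δ + γ ^ 2 := by rw [hΔ]; ring
    field_simp
    linear_combination (1 - p * q * Δ) * this
  rw [div_div, k1, k2, div_div_div_cancel_right₀ hΔ0]

/-- `S_aprB` -/
theorem aprB (h : S_aprA) : S_aprB := by
  intro D lam hD hlam
  obtain ⟨C, hC, hh⟩ := h D lam hD hlam
  refine ⟨C, hC, fun s hs hs1 μ _ hμ hμD => ?_⟩
  obtain ⟨H1, H2⟩ := hh s hs hs1 μ hμD
  have hs0 : 0 < s := by linarith
  intro ι T hT ω z hz
  classical
  refine ⟨fun x => ?_, fun x u hxu => ?_⟩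
  · obtain ⟨α, hα⟩ : ∃ α : ℂ, α = Gr (HH T lam (Function.update ω x 0)) z x x := ⟨_, rfl⟩
    have hαi : 0 < α.im := by rw [hα]; exact Gr_im_pos _ (HH_rs T hT lam _) z hz x
    have hα0 : α ≠ 0 := by
      intro h0
      rw [h0] at hαi
      simp at hαi
    refine le_trans (le_of_eq ?_) (H1 (-(1 / α)))
    refine lintegral_congr_ae ?_
    filter_upwards [hμ] with v hv
    rw [site T hT lam ω z hz x x v hv, ← hα, enorm_rpow _ s hs0.le, ← norm_inv]
    have e1 : α / (1 + (lam : ℂ) * (v : ℂ) * α) = (((lam * v : ℝ) : ℂ) - -(1 / α))⁻¹ := by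
      have e2 : ((lam * v : ℝ) : ℂ) - -(1 / α) = (1 + (lam : ℂ) * (v : ℂ) * α) / α := by
        push_cast
        field_simp
        ring
      rw [e2, inv_div]
    rw [e1]
  · obtain ⟨α, hα⟩ : ∃ α : ℂ,
      α = Gr (HH T lam (Function.update (Function.update ω u 0) x 0)) z x x := ⟨_, rfl⟩
    obtain ⟨β, hβ⟩ : ∃ β : ℂ,
      β = Gr (HH T lam (Function.update (Function.update ω u 0) x 0)) z u u := ⟨_, rfl⟩
    obtain ⟨γ, hγ⟩ : ∃ γ : ℂ,
      γ = Gr (HH T lam (Function.update (Function.update ω u 0) x 0)) z x u := ⟨_, rfl⟩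
    obtain ⟨Δ, hΔ⟩ : ∃ Δ : ℂ, Δ = α * β - γ ^ 2 := ⟨_, rfl⟩
    refine le_trans (le_of_eq ?_) (H2 (β / Δ) (α / Δ) (γ / Δ))
    refine lintegral_congr_ae ?_
    filter_upwards [hμ] with v hv
    refine lintegral_congr_ae ?_
    filter_upwards [hμ] with w hw
    rw [site2 T hT lam ω z hz x u hxu v w hv hw α β γ Δ hα hβ hγ hΔ, enorm_rpow _ s hs0.le,
      norm_div]

end Pool.Agent.H356.UE
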