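import Pool.Agent.H121.UE.Iface

/-! Project UE: resampling finitely many coordinates (`S_badE`). -/

set_option autoImplicit false

open scoped BigOperators InnerProductSpace Topology ENNReal
open Filter MeasureTheory

namespace Pool.Agent.H356.UE

open Pool.Agent.Y662.TR (LL Cf Mw dv hu)
open Pool.Agent.H987.Z (Rs Gr)
open Pool.Agent.H121.Z987 (HH lint_resample update_meas Gr_HH_cont)
open Pool.Agent.H121.UE (Apr S_badE)

theorem ind_le_one (A : Set ℝ) (v : ℝ) : A.indicator (fun _ => (1 : ℝ≥0∞)) v ≤ 1 := by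
  classical
  rw [Set.indicator_apply]
  split_ifs
  · exact le_rfl
  · exact zero_le_one

theorem prod_ind_meas {ι : Type} (B : Finset ι) (A : Set ℝ) (hA : MeasurableSet A) :
    Measurable fun ω : ι → ℝ => ∏ w ∈ B, A.indicator (fun _ => (1 : ℝ≥0∞)) (ω w) := by
  refine Finset.measurable_prod B fun w _ => ?_
  exact (measurable_const.indicator hA).comp (measurable_pi_apply w)

theorem prod_update {ι : Type} [DecidableEq ι] (B : Finset ι) (A : Set ℝ) (x : ι) (hx : x ∉ B)
    (ω : ι → ℝ) (v : ℝ) :
    ∏ w ∈ B, A.indicator (fun _ => (1 : ℝ≥0∞)) (Function.update ω x v w) =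
      ∏ w ∈ B, A.indicator (fun _ => (1 : ℝ≥0∞)) (ω w) := by
  refine Finset.prod_congr rfl fun w hw => ?_
  have : w ≠ x := fun h => hx (h ▸ hw)
  rw [Function.update_of_ne this]

/-- resampling a finite set of coordinates -/
theorem prod_lint {ι : Type} [DecidableEq ι] (μ : Measure ℝ) [IsProbabilityMeasure μ] (A : Set ℝ)
    (hA : MeasurableSet A) (B : Finset ι) :
    ∀ g : (ι → ℝ) → ℝ≥0∞, Measurable g →
      (∀ ω, ∀ w ∈ B, ∀ v : ℝ, g (Function.update ω w v) = g ω) →
      ∫⁻ ω, (∏ w ∈ B, A.indicator (fun _ => (1 : ℝ≥0∞)) (ω w)) * g ω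
        ∂(Measure.infinitePi fun _ : ι => μ) =
      μ A ^ B.card * ∫⁻ ω, g ω ∂(Measure.infinitePi fun _ : ι => μ) := by
  induction B using Finset.induction_on with
  | empty =>
    intro g hg h
    simp
  | insert w B hw ih =>
    intro g hg h
    have hm : Measurable fun ω : ι → ℝ =>
        (∏ w ∈ insert w B, A.indicator (fun _ => (1 : ℝ≥0∞)) (ω w)) * g ω :=
      (prod_ind_meas _ A hA).mul hg
    rw [lint_resample μ w _ hm]
    have e1 : ∀ ω : ι → ℝ, ∫⁻ v, (∏ w' ∈ insert w B,
        A.indicator (fun _ => (1 : ℝ≥0∞)) (Function.update ω w v w')) *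
          g (Function.update ω w v) ∂μ =
        μ A * ((∏ w ∈ B, A.indicator (fun _ => (1 : ℝ≥0∞)) (ω w)) * g ω) := by
      intro ω
      have e2 : ∀ v : ℝ, (∏ w' ∈ insert w B,
        A.indicator (fun _ => (1 : ℝ≥0∞)) (Function.update ω w v w')) *
          g (Function.update ω w v) =
          A.indicator (fun _ => (1 : ℝ≥0∞)) v *
            ((∏ w ∈ B, A.indicator (fun _ => (1 : ℝ≥0∞)) (ω w)) * g ω) := by
        intro v
        rw [Finset.prod_insert hw, prod_update B A w hw, Function.update_self,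
          h ω w (Finset.mem_insert_self w B) v, mul_assoc]
      simp only [e2]
      rw [lintegral_mul_const _ (measurable_const.indicator hA), lintegral_indicator hA,
        setLIntegral_one]
    simp only [e1]
    have hm' : Measurable fun ω : ι → ℝ =>
        (∏ w ∈ B, A.indicator (fun _ => (1 : ℝ≥0∞)) (ω w)) * g ω :=
      (prod_ind_meas _ A hA).mul hg
    rw [lintegral_const_mul _ hm',
      ih g hg (fun ω w' hw' v => h ω w' (Finset.mem_insert_of_mem hw') v),
      Finset.card_insert_of_notMem hw, pow_succ]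
    ring

/-- `S_badE` -/
theorem badE : S_badE := by
  intro μ _ lam s C hs hap ι _ T hT z hz B x u A g hx hu hA hg hinv
  classical
  obtain ⟨B', hB'⟩ : ∃ B' : Finset ι, B' = (B.erase x).erase u := ⟨_, rfl⟩
  have hxB : x ∉ B' := by
    rw [hB']
    simp
  have huB : u ∉ B' := by
    rw [hB']
    simp
  have hsub : B' ⊆ B := by
    rw [hB']
    exact (Finset.erase_subset _ _).trans (Finset.erase_subset _ _)
  have hcard : B.card - 2 ≤ B'.card := by
    have h1 : B.card - 1 ≤ (B.erase x).card := Finset.pred_card_le_card_erase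
    have h2 : (B.erase x).card - 1 ≤ ((B.erase x).erase u).card := Finset.pred_card_le_card_erase
    rw [hB']
    omega
  have hAle : μ A ≤ 1 := prob_le_one
  obtain ⟨P, hP⟩ : ∃ P : (ι → ℝ) → ℝ≥0∞,
      P = fun ω => ∏ w ∈ B', A.indicator (fun _ => (1 : ℝ≥0∞)) (ω w) := ⟨_, rfl⟩
  have hPm : Measurable P := by
    rw [hP]
    exact prod_ind_meas B' A hA
  have hPx : ∀ ω v, P (Function.update ω x v) = P ω := by
    intro ω v
    rw [hP]
    exact prod_update B' A x hxB ω v
  have hPu : ∀ ω v, P (Function.update ω u v) = P ω := by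
    intro ω v
    rw [hP]
    exact prod_update B' A u huB ω v
  have hle : ∀ ω : ι → ℝ, (∏ w ∈ B, A.indicator (fun _ => (1 : ℝ≥0∞)) (ω w)) ≤ P ω := by
    intro ω
    rw [hP]
    refine Finset.prod_le_prod_of_subset_of_le_one' hsub fun w _ _ => ?_
    exact ind_le_one A _
  have hGm : Measurable fun ω : ι → ℝ => ‖Gr (HH T lam ω) z x u‖ₑ ^ s :=
    ((Gr_HH_cont T hT lam z x u hz.ne').measurable.enorm).pow_const s
  have hPg : Measurable fun ω : ι → ℝ => P ω * g ω := hPm.mul hg
  have hfm : Measurable fun ω : ι → ℝ => P ω * ‖Gr (HH T lam ω) z x u‖ₑ ^ s * g ω :=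
    (hPm.mul hGm).mul hg
  have key : ∫⁻ ω, P ω * ‖Gr (HH T lam ω) z x u‖ₑ ^ s * g ω
      ∂(Measure.infinitePi fun _ : ι => μ) ≤
      ∫⁻ ω, ENNReal.ofReal C * (P ω * g ω) ∂(Measure.infinitePi fun _ : ι => μ) := by
    by_cases hxu : x = u
    · subst hxu
      rw [lint_resample μ x _ hfm]
      refine lintegral_mono fun ω => ?_
      have e1 : ∀ v : ℝ, P (Function.update ω x v) *
          ‖Gr (HH T lam (Function.update ω x v)) z x x‖ₑ ^ s * g (Function.update ω x v) =
          (P ω * g ω) * ‖Gr (HH T lam (Function.update ω x v)) z x x‖ₑ ^ s := by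
        intro v
        rw [hPx, hinv ω x hx v]
        ring
      simp only [e1]
      have hm1 : Measurable fun v : ℝ =>
          ‖Gr (HH T lam (Function.update ω x v)) z x x‖ₑ ^ s :=
        hGm.comp (measurable_update ω)
      rw [lintegral_const_mul _ hm1, mul_comm]
      gcongr
      exact (hap ι T hT ω z hz).1 x
    · have hF : Measurable fun ω : ι → ℝ => ∫⁻ w, P (Function.update ω u w) *
          ‖Gr (HH T lam (Function.update ω u w)) z x u‖ₑ ^ s * g (Function.update ω u w) ∂μ := by
        have h1 := (hfm.comp (update_meas u)).lintegral_prod_right' (ν := μ)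
        exact h1
      rw [lint_resample μ u _ hfm, lint_resample μ x _ hF]
      refine lintegral_mono fun ω => ?_
      have e1 : ∀ v w : ℝ, P (Function.update (Function.update ω x v) u w) *
          ‖Gr (HH T lam (Function.update (Function.update ω x v) u w)) z x u‖ₑ ^ s *
            g (Function.update (Function.update ω x v) u w) =
          (P ω * g ω) *
            ‖Gr (HH T lam (Function.update (Function.update ω x v) u w)) z x u‖ₑ ^ s := by
        intro v w
        rw [hPu, hPx, hinv _ u hu w, hinv ω x hx v]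
        ring
      simp only [e1]
      have hm1 : ∀ v : ℝ, Measurable fun w : ℝ =>
          ‖Gr (HH T lam (Function.update (Function.update ω x v) u w)) z x u‖ₑ ^ s :=
        fun v => hGm.comp (measurable_update (Function.update ω x v))
      have hm2 : Measurable fun v : ℝ => ∫⁻ w,
          ‖Gr (HH T lam (Function.update (Function.update ω x v) u w)) z x u‖ₑ ^ s ∂μ := by
        have h1 : Measurable fun ω : ι → ℝ => ∫⁻ w,
            ‖Gr (HH T lam (Function.update ω u w)) z x u‖ₑ ^ s ∂μ :=
          (hGm.comp (update_meas u)).lintegral_prod_right' (ν := μ)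
        exact h1.comp (measurable_update ω)
      have e2 : ∀ v : ℝ, ∫⁻ w, (P ω * g ω) *
            ‖Gr (HH T lam (Function.update (Function.update ω x v) u w)) z x u‖ₑ ^ s ∂μ =
          (P ω * g ω) * ∫⁻ w,
            ‖Gr (HH T lam (Function.update (Function.update ω x v) u w)) z x u‖ₑ ^ s ∂μ :=
        fun v => lintegral_const_mul _ (hm1 v)
      simp only [e2]
      rw [lintegral_const_mul _ hm2, mul_comm]
      gcongr
      exact (hap ι T hT ω z hz).2 x u hxu
  calc ∫⁻ ω, (∏ w ∈ B, A.indicator (fun _ => (1 : ℝ≥0∞)) (ω w)) *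
        ‖Gr (HH T lam ω) z x u‖ₑ ^ s * g ω ∂(Measure.infinitePi fun _ : ι => μ) ≤
      ∫⁻ ω, P ω * ‖Gr (HH T lam ω) z x u‖ₑ ^ s * g ω
        ∂(Measure.infinitePi fun _ : ι => μ) := by
        refine lintegral_mono fun ω => ?_
        gcongr
        exact hle ω
    _ ≤ ∫⁻ ω, ENNReal.ofReal C * (P ω * g ω) ∂(Measure.infinitePi fun _ : ι => μ) := key
    _ = ENNReal.ofReal C * (μ A ^ B'.card * ∫⁻ ω, g ω ∂(Measure.infinitePi fun _ : ι => μ)) := by
        rw [lintegral_const_mul _ hPg, hP,
          prod_lint μ A hA B' g hg (fun ω w hw v => hinv ω w (hsub hw) v)]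
    _ ≤ ENNReal.ofReal C * μ A ^ (B.card - 2) *
        ∫⁻ ω, g ω ∂(Measure.infinitePi fun _ : ι => μ) := by
        rw [← mul_assoc]
        exact mul_le_mul_left (mul_le_mul_right (pow_le_pow_right_of_le_one' hAle hcard) _) _

end Pool.Agent.H356.UE
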